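import Pool.Agent.Q138.PS.WK
import Pool.Agent.Q138.PS.WJ
import Pool.Agent.Q138.AJ.Rbbc1fa

/-!
# Four exponentials for the groups generated by `N` and `u_j + x_i N`, with `u_j / N` close to given real numbers

Let `x_1, …, x_k` be distinct rational numbers. For integers `N ≥ 1` and `u_1, …, u_n` consider the group generated by `N` and the
`u_j + x_i N`, and its elements `N ^ c_0 ∏ (u_j + x_i N) ^ c_(j,i)` with exponents of size at most `N ^ A`. The tuple `u` is exceptional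
(for `A`, `B`, `[a, b]` and `N`) if `a ≤ u_j / N ≤ b` and some `2 × 2` matrix of logarithms of such elements with `ℚ`-linearly
independent rows and columns has a determinant of absolute value at most `N ^ (-B)`; in particular if the four exponentials
conjecture fails for such a matrix. We show that only the points `z` of a small set have exceptional tuples among their good
simultaneous approximations `u_1 / N, …, u_n / N`.

* For given `A`, `[a, b]` with all `a + x_i > 0` and `β > 1 - 1 / (3 ^ (k n) + 1)` there is `B` such that for all `θ > 0`: outside a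
  set of `z ∈ ℝ^n` of Hausdorff dimension at most `(n + β) / θ`, for all large `N` no exceptional `u` satisfies
  `|u_j / N - z_j| ≤ N ^ (-θ)` for all `j`. Every `z` has infinitely many approximations with `θ = 1 + 1 / n` (Dirichlet), and
  for this `θ` the dimension is smaller than `n` if `β < 1`.
* Outside a set of Hausdorff dimension ZERO every `z ∈ ℝ^n` has the property that for all `A` and `[a, b]` there are `B` and `θ` such
  that for all large `N` no exceptional `u` satisfies `|u_j / N - z_j| ≤ N ^ (-θ)` for all `j`.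
-/

set_option autoImplicit false

namespace Pool.Agent.Results.MP_bbc1fa_nt.GroupsNearGivenPoints

open Filter Pool.Agent.Q138.PS Pool.Agent.Q138.AJ.Rbbc1fa

theorem mono {n k : ℕ} {x : Fin k → ℚ} {a a' b b' A A' B : ℝ} {N : ℕ} (h1 : a' ≤ a) (h2 : b ≤ b')
    (h3 : A ≤ A') (hN : 1 ≤ N) : Exceptional n x a b A B N ⊆ Exceptional n x a' b' A' B N := by
  rintro u ⟨hu, α, hα, hr, hc, hd⟩
  have hN1 : (1 : ℝ) ≤ N := by exact_mod_cast hN
  refine ⟨fun j => ⟨(mul_le_mul_of_nonneg_right h1 (by linarith)).trans (hu j).1,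
    (hu j).2.trans (mul_le_mul_of_nonneg_right h2 (by linarith))⟩, α, fun i j => ?_, hr, hc, hd⟩
  obtain ⟨c0, c, e1, e2, e3⟩ := hα i j
  have h4 : (N : ℝ) ^ A ≤ (N : ℝ) ^ A' := Real.rpow_le_rpow_of_exponent_le hN1 h3
  exact ⟨c0, c, e1.trans h4, fun j i => (e2 j i).trans h4, e3⟩

/-- **Theorem.** -/
theorem result (n k : ℕ) (hn : 1 ≤ n) (x : Fin k → ℚ) (hx : Function.Injective x) :
    (∀ A a b β : ℝ, (∀ i, 0 < a + x i) → a < b → 1 - 1 / ((3 : ℝ) ^ (k * n) + 1) < β → ∃ B : ℝ, ∀ θ : ℝ, 0 < θ →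
      ∃ Z : Set (Fin n → ℝ), dimH Z ≤ ENNReal.ofReal (((n : ℝ) + β) / θ) ∧ ∀ z, z ∉ Z → ∀ᶠ N : ℕ in atTop,
        ∀ u ∈ Exceptional n x a b A B N, ∃ j, (N : ℝ) ^ (-θ) < |(u j : ℝ) / N - z j|) ∧
    ∃ Z : Set (Fin n → ℝ), dimH Z = 0 ∧ ∀ z, z ∉ Z → ∀ A a b : ℝ, (∀ i, 0 < a + x i) → a < b → ∃ B θ : ℝ, 0 < θ ∧
      ∀ᶠ N : ℕ in atTop, ∀ u ∈ Exceptional n x a b A B N, ∃ j, (N : ℝ) ^ (-θ) < |(u j : ℝ) / N - z j| := by
  have hb : ∀ β : ℝ, 1 - 1 / ((3 : ℝ) ^ (k * n) + 1) < β → 0 ≤ β := by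
    intro β hβ
    have h3 : 1 / ((3 : ℝ) ^ (k * n) + 1) ≤ 1 := by
      rw [div_le_one (by positivity)]
      have : (0 : ℝ) < (3 : ℝ) ^ (k * n) := by positivity
      linarith
    linarith
  constructor
  · intro A a b β ha hab hβ
    obtain ⟨B, C, h⟩ := Pool.Agent.Q138.AJ.Rbbc1fa.result n k hn x hx a b hab ha (max A 0) β (le_max_right _ _) hβ
    refine ⟨B, fun θ hθ => ?_⟩
    obtain ⟨Z, hZ, hz⟩ := far_den (fun N => Exceptional n x a b (max A 0) B N) θ ((n : ℝ) + β) C hθ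
      (by have := hb β hβ; positivity) fun N hN => by
        have h1 := h N hN
        have e : (n : ℝ) + β - 1 = (n : ℝ) - 1 + β := by ring
        rw [e]
        exact h1
    refine ⟨Z, hZ, fun z hzZ => ?_⟩
    filter_upwards [hz z hzZ, eventually_ge_atTop 1] with N hN hN1
    exact fun u hu => hN u (mono le_rfl le_rfl (le_max_left _ _) hN1 hu)
  · obtain ⟨Z, hZ, hz⟩ := zero_den (n := n)
      (J := ℕ × {i : ℚ × ℚ // (∀ l, 0 < (i.1 : ℝ) + ((x l : ℚ) : ℝ)) ∧ (i.1 : ℝ) < (i.2 : ℝ)})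
      (fun i B N => Exceptional n x (i.2.1.1 : ℝ) (i.2.1.2 : ℝ) (i.1 : ℝ) B N) (by
        rintro ⟨A, ⟨⟨a, b⟩, ha, hab⟩⟩
        obtain ⟨B, C, h⟩ := Pool.Agent.Q138.AJ.Rbbc1fa.result n k hn x hx (a : ℝ) (b : ℝ) hab ha (A : ℝ) 1 (Nat.cast_nonneg _)
          (by
            have : 0 < 1 / ((3 : ℝ) ^ (k * n) + 1) := by positivity
            linarith)
        refine ⟨B, (n : ℝ) + 1, C, by positivity, fun N hN => ?_⟩
        have h1 := h N hN
        have e : (n : ℝ) + 1 - 1 = (n : ℝ) - 1 + 1 := by ring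
        rw [e]
        exact h1)
    refine ⟨Z, hZ, fun z hzZ A a b ha hab => ?_⟩
    obtain ⟨i, hi1, hi2⟩ := ends_shift (fun l => ((x l : ℚ) : ℝ)) ha hab
    obtain ⟨B, θ, hθ, h⟩ := hz z hzZ (⌈A⌉₊, i)
    refine ⟨B, θ, hθ, ?_⟩
    filter_upwards [h, eventually_ge_atTop 1] with N hN hN1
    exact fun u hu => hN u (mono hi1 hi2 (Nat.le_ceil A) hN1 hu)

end Pool.Agent.Results.MP_bbc1fa_nt.GroupsNearGivenPoints
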