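import Pool.Agent.Q138.PS.VH
import Pool.Agent.Q138.PS.XU
import Pool.Agent.Results.MP_bbc1fa_nt.WindowGroups

/-!
# The four exponentials conjecture for the groups generated by the integers close to the powers of almost every real number

Let `𝒞` be a countable set of real numbers (for example the logarithms of all positive rational numbers). For almost every real
number `α > 1` (one null set) the following holds. For ALL `r` and ALL `ℚ`-spaces `V` spanned by finitely many elements of `𝒞` there
is `κ > 0` such that for all real algebraic `c > 0`, all integers `j`, all real `D` and all large `n` ALL `r`-tuples `t_1, …, t_r` of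
distinct integers with `|t_i - c n ^ j α ^ n| ≤ D (c n ^ j α ^ n) ^ κ` have logarithms which are `ℚ`-linearly independent modulo `V`,
and every real `2 × 2` matrix with `ℚ`-linearly independent rows, `ℚ`-linearly independent columns, entries in `V + ∑ ℚ log t_i`,
not all in `V`, is nonsingular.
-/

set_option autoImplicit false

open Module

namespace Pool.Agent.Results.MP_bbc1fa_nt.GroupsNearPowers

open Finset Filter Topology MeasureTheory
open Pool.Agent.Q138.PS

/-- For all `r`-tuples of distinct elements of `S` the logarithms are `ℚ`-linearly independent modulo `V`, and every real matrix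
with independent rows, independent columns and entries in the space spanned by `V` and the logarithms, not all in `V`, is
nonsingular. -/
def FourExp (V : Submodule ℚ ℝ) (r : ℕ) (S : Set ℕ) : Prop :=
  ∀ t : Fin r → ℕ, Function.Injective t → (∀ i, t i ∈ S) →
    finrank ℚ (V ⊔ Submodule.span ℚ (Set.range fun i => Real.log (t i)) : Submodule ℚ ℝ) = finrank ℚ V + r ∧
    ∀ M : Matrix (Fin 2) (Fin 2) ℝ,
      (∀ i j, M i j ∈ V ⊔ Submodule.span ℚ (Set.range fun i => Real.log (t i))) →
      (∃ i j, M i j ∉ V) →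
      LinearIndependent ℚ (fun i : Fin 2 => fun j : Fin 2 => M i j) →
      LinearIndependent ℚ (fun j : Fin 2 => fun i : Fin 2 => M i j) → M.det ≠ 0

theorem mono (V : Submodule ℚ ℝ) (r : ℕ) (S S' : Set ℕ) (h : S ⊆ S') (h' : FourExp V r S') : FourExp V r S :=
  fun t ht htS => h' t ht fun i => h (htS i)

theorem windows (V : Submodule ℚ ℝ) (hV : Module.Finite ℚ V) (r : ℕ) : WinProp (FourExp V r) := by
  classical
  obtain ⟨E, hE⟩ := WindowGroups.result r (finrank ℚ V)
  refine ⟨finrank ℚ V + 1, win_of_pow _ (mono V r) (finrank ℚ V + 1) E fun H ξ hH => ?_⟩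
  obtain ⟨S, hS, h⟩ := hE H ξ hH V hV le_rfl
  refine ⟨S.image fun x => x.num.natAbs, card_image_le.trans hS, ?_⟩
  intro t hinj ht
  choose g hg1 hg2 hg3 hg4 using ht
  have h1 := h (fun i => (g i : ℚ)) (fun i j hij => hinj (by
    rw [hg4 i, hg4 j]
    have h5 : ((g i : ℕ) : ℚ) = (g j : ℕ) := hij
    have h6 : g i = g j := by exact_mod_cast h5
    rw [h6])) (fun i => ⟨fun hmem => hg3 i ?_, ?_, ?_, ?_⟩)
  · have e : (fun i => Real.log ((ξ : ℝ) + (((g i : ℕ) : ℚ) : ℝ))) = fun i => Real.log (t i) := by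
      funext i
      rw [hg4 i]
      push_cast
      rfl
    rw [e] at h1
    exact h1
  · exact mem_image.2 ⟨_, hmem, by simp⟩
  · have := hg1 i
    have h2 : (0 : ℚ) < g i := by exact_mod_cast this
    exact h2.ne'
  · simpa using hg2 i
  · simpa using (hg1 i).trans (hg2 i)

/-- **Theorem.** -/
theorem result (𝒞 : Set ℝ) (h𝒞 : 𝒞.Countable) :
    ∀ᵐ α : ℝ, 1 < α → ∀ (s : ℕ) (v : Fin s → ℝ), (∀ i, v i ∈ 𝒞) → ∀ r : ℕ,
      ∃ κ : ℝ, 0 < κ ∧ ∀ c : ℝ, 0 < c → IsAlgebraic ℚ c → ∀ (j : ℤ) (D : ℝ), ∀ᶠ n : ℕ in atTop,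
        FourExp (Submodule.span ℚ (Set.range v)) r {t | NearPow α c j D κ n t} := by
  have hC : Countable {x : ℝ // x ∈ 𝒞} := h𝒞.to_subtype
  filter_upwards [pow_ae_win (ι := ℕ × (Σ s : ℕ, Fin s → {x : ℝ // x ∈ 𝒞}))
    (fun i => FourExp (Submodule.span ℚ (Set.range fun j => (i.2.2 j : ℝ))) i.1) (fun i => mono _ _)] with α h1 hα s v hv r
  have hV : Module.Finite ℚ (Submodule.span ℚ (Set.range v)) := Module.Finite.span_of_finite _ (Set.finite_range v)
  exact h1 hα (r, ⟨s, fun j => ⟨v j, hv j⟩⟩) (windows _ hV r)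

end Pool.Agent.Results.MP_bbc1fa_nt.GroupsNearPowers
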