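import Pool.Agent.Q84.NX.Str
import Pool.Agent.Q84.NX.Core
import Pool.Agent.Results.MP_bbc1fa_nt.WindowGroups

/-!
# The four exponentials conjecture for the groups generated by numbers near the multiples of the primes of a string

Let `V` be a finite dimensional `ℚ`-space of real numbers and `r ≥ 0`. There is `θ > 0`, for all `κ > 0` and `m` there is
`c' > 0` and for every `Z` a number `D` with the following property. For every large `X` there is a set `S` of at most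
`(log X) ^ (49 / 50)` primes, all larger than `Z`, such that for EVERY function `f` with values `1` and `-1` on the primes
at least `X ^ (1 - κ)` integers `n`, `X < n ≤ 3X`, satisfy: the interval `[n, n + D]` contains at least `m` primes, and for
every prime `p` in it

* the Legendre symbol `(p / q)` is `f q` for all odd primes `q ≤ c' log X` outside `S`;
* for ALL integers `k`, `1 ≤ k ≤ p ^ θ`, and ALL `r`-tuples of distinct rational numbers `β_1, …, β_r` with numerators and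
  denominators at most `p ^ θ` (for instance: integers, `0` included): the numbers `log (k p + β_i)` are `ℚ`-linearly
  independent modulo `V`, and every real matrix with `ℚ`-linearly independent rows, `ℚ`-linearly independent columns, entries
  which are rational linear combinations (of any height) of elements of `V` and these `r` logarithms, not all in `V`, is
  nonsingular.

Method: by the starting result `WindowGroups` a window has at most `dim V + 1` exceptional numbers, so few integers are near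
an exceptional number; every integer below `X ^ 2` has at most one prime factor larger than `X` (`Q84/NX/Core`); the
Maynard-Tao theorem relative to a modulus which is a small power of `X`, in the form that it avoids arbitrary exceptional
sets of size `X ^ (1 - η)` (`Q84/MB/E1-E4`), gives the strings.
-/

set_option autoImplicit false

open scoped Classical

namespace Pool.Agent.Results.MP_bbc1fa_nt.StringsOfPrimes

open Finset Filter

/-- the space `V + ℚ log x_1 + ⋯ + ℚ log x_r` -/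
noncomputable def adjoin (V : Submodule ℚ ℝ) {r : ℕ} (x : Fin r → ℝ) : Submodule ℚ ℝ :=
  V ⊔ Submodule.span ℚ (Set.range fun i => Real.log (x i))

/-- the numbers `log x_i` are independent modulo `V`, and the four exponentials conjecture holds for the matrices with
entries in `V + ℚ log x_1 + ⋯ + ℚ log x_r`, not all in `V` -/
def FourExp (V : Submodule ℚ ℝ) {r : ℕ} (x : Fin r → ℝ) : Prop :=
  Module.finrank ℚ (adjoin V x) = Module.finrank ℚ V + r ∧
  ∀ M : Matrix (Fin 2) (Fin 2) ℝ, (∀ i j, M i j ∈ adjoin V x) → (∃ i j, M i j ∉ V) →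
    LinearIndependent ℚ (fun i : Fin 2 => fun j : Fin 2 => M i j) →
    LinearIndependent ℚ (fun j : Fin 2 => fun i : Fin 2 => M i j) → M.det ≠ 0

/-- `FourExp` for all `r`-tuples of distinct numbers `k p + β_i`, `β_i` of height at most `p ^ θ`, for all `k ≤ p ^ θ` -/
def Good (V : Submodule ℚ ℝ) (r : ℕ) (θ : ℝ) (p : ℕ) : Prop :=
  ∀ k : ℕ, 1 ≤ k → (k : ℝ) ≤ (p : ℝ) ^ θ → ∀ β : Fin r → ℚ, Function.Injective β →
    (∀ i, |((β i).num : ℝ)| ≤ (p : ℝ) ^ θ ∧ ((β i).den : ℝ) ≤ (p : ℝ) ^ θ) →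
    FourExp V fun i => ((k * p : ℕ) : ℝ) + ((β i : ℚ) : ℝ)

/-- the height of a shift -/
theorem shift_height (β : ℚ) (j W B : ℕ) (h1 : |β.num| ≤ W) (h2 : β.den ≤ W) (hj : W < j) (hjB : j ≤ B) :
    β + j ≠ 0 ∧ |(β + j).num| ≤ (W + B * W : ℕ) ∧ (β + j).den ≤ W + B * W := by
  have hden : (β + j).den = β.den := Rat.add_natCast_den β j
  have hnum : (β + j).num = β.num + j * β.den := by
    have h3 : ((β + j).num : ℚ) = (β + j) * (β + j).den := (Rat.mul_den_eq_num _).symm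
    have h4 : (β.num : ℚ) = β * β.den := (Rat.mul_den_eq_num _).symm
    have h5 : ((β + j).num : ℚ) = ((β.num + j * β.den : ℤ) : ℚ) := by
      rw [h3, hden]
      push_cast
      rw [h4]
      ring
    exact_mod_cast h5
  have hdpos : 1 ≤ β.den := β.pos
  have hjb : (W : ℤ) < j * β.den := by
    have h6 : W < j * β.den := lt_of_lt_of_le hj (Nat.le_mul_of_pos_right j hdpos)
    exact_mod_cast h6
  have h7 := abs_le.1 h1
  have h8 : 0 < (β + j).num := by rw [hnum]; linarith [h7.1]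
  refine ⟨fun h => ?_, ?_, ?_⟩
  · rw [h] at h8
    simp at h8
  · rw [abs_of_pos h8, hnum]
    have h9 : j * β.den ≤ B * W := Nat.mul_le_mul hjB h2
    have h10 : (j : ℤ) * β.den ≤ B * W := by exact_mod_cast h9
    push_cast
    linarith [h7.2]
  · rw [hden]
    omega

/-- few primes are bad -/
theorem few_bad (V : Submodule ℚ ℝ) (r E m : ℕ)
    (hE : ∀ H t : ℕ, (H + 2) ^ E ≤ t → ∃ S : Finset ℚ, S.card ≤ m + 1 ∧ ∀ β : Fin r → ℚ, Function.Injective β →
      (∀ i, β i ∉ S ∧ β i ≠ 0 ∧ |(β i).num| ≤ H ∧ (β i).den ≤ H) → FourExp V fun i => (t : ℝ) + ((β i : ℚ) : ℝ))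
    (θ : ℝ) (hθ : θ = 1 / (12 * ((E : ℝ) + 1))) :
    ∀ᶠ X : ℝ in atTop, (((Icc 1 ⌊4 * X⌋₊).filter fun p : ℕ => p.Prime ∧ X < p ∧ ¬ Good V r θ p).card : ℝ) ≤
      X ^ (1 - θ / 2) := by
  have hE1 : (1 : ℝ) ≤ (E : ℝ) + 1 := by
    have : (0 : ℝ) ≤ E := Nat.cast_nonneg E
    linarith
  have hθ0 : 0 < θ := by rw [hθ]; positivity
  have hθE : θ * (12 * ((E : ℝ) + 1)) = 1 := by
    rw [hθ]
    field_simp
  have hθ12 : 12 * θ ≤ 1 := by nlinarith
  have hθE' : 4 * E * θ ≤ 1 / 2 := by nlinarith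
  filter_upwards [(tendsto_rpow_atTop (by positivity : (0 : ℝ) < θ / 2)).eventually_ge_atTop (300 * ((m : ℝ) + 1)),
    (tendsto_rpow_atTop (by norm_num : (0 : ℝ) < 1 / 2)).eventually_ge_atTop (4 * 2 ^ (4 * E) + 12),
    eventually_ge_atTop (8 : ℝ)] with X hXC hXs hX8
  have hX0 : 0 < X := by linarith
  have hX1 : 1 ≤ X := by linarith
  -- the square root
  obtain ⟨s, hs⟩ : ∃ s, s = X ^ (1 / 2 : ℝ) := ⟨_, rfl⟩
  rw [← hs] at hXs
  have h2E : (1 : ℝ) ≤ 2 ^ (4 * E) := one_le_pow₀ (by norm_num)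
  have hs12 : 12 ≤ s := by linarith
  have hsX : s * s = X := by
    rw [hs, ← Real.rpow_add hX0]
    norm_num
  obtain ⟨y, hy⟩ : ∃ y, y = 4 * X := ⟨_, rfl⟩
  have hy0 : 0 < y := by rw [hy]; linarith
  have hy1 : 1 ≤ y := by rw [hy]; linarith
  have hys : y ^ (1 / 2 : ℝ) = 2 * s := by
    rw [hy, Real.mul_rpow (by norm_num) hX0.le, ← hs]
    congr 1
    rw [show (4 : ℝ) = 2 ^ (2 : ℝ) by norm_num, ← Real.rpow_mul (by norm_num)]
    norm_num
  obtain ⟨w, hw⟩ : ∃ w, w = y ^ θ := ⟨_, rfl⟩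
  have hw1 : 1 ≤ w := by rw [hw]; exact Real.one_le_rpow hy1 hθ0.le
  have hw0 : 0 < w := by linarith
  have hw3 : w ^ 3 ≤ 2 * s := by
    rw [hw, ← hys, ← Real.rpow_natCast (y ^ θ) 3, ← Real.rpow_mul hy0.le]
    apply Real.rpow_le_rpow_of_exponent_le hy1
    push_cast
    linarith
  have hwE : w ^ (4 * E) ≤ 2 * s := by
    rw [hw, ← hys, ← Real.rpow_natCast (y ^ θ) (4 * E), ← Real.rpow_mul hy0.le]
    apply Real.rpow_le_rpow_of_exponent_le hy1
    push_cast
    linarith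
  have hww : w ≤ 2 * s := by
    have h1 : w ≤ w ^ 3 := by
      calc w = w ^ 1 := (pow_one w).symm
        _ ≤ w ^ 3 := pow_le_pow_right₀ hw1 (by norm_num)
    linarith
  obtain ⟨W, hW⟩ : ∃ W, W = ⌊w⌋₊ := ⟨_, rfl⟩
  have hWw : (W : ℝ) ≤ w := by rw [hW]; exact Nat.floor_le hw0.le
  have hW1 : 1 ≤ W := by rw [hW]; exact Nat.le_floor (by exact_mod_cast hw1)
  have hW1r : (1 : ℝ) ≤ W := by exact_mod_cast hW1
  have hwW : w ≤ 2 * W := by
    have : w < W + 1 := by rw [hW]; exact Nat.lt_floor_add_one w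
    linarith
  obtain ⟨L, hL⟩ : ∃ L, L = W ^ 3 := ⟨_, rfl⟩
  have hL1 : 1 ≤ L := by rw [hL]; exact Nat.one_le_pow _ _ hW1
  have hLw : (L : ℝ) ≤ w ^ 3 := by
    rw [hL]
    push_cast
    exact pow_le_pow_left₀ (by linarith) hWw 3
  have hwL : w ^ 3 ≤ 8 * L := by
    rw [hL]
    push_cast
    calc w ^ 3 ≤ (2 * (W : ℝ)) ^ 3 := pow_le_pow_left₀ hw0.le hwW 3
      _ = 8 * (W : ℝ) ^ 3 := by ring
  obtain ⟨B, hB⟩ : ∃ B, B = W + L + 1 := ⟨_, rfl⟩
  obtain ⟨H, hH⟩ : ∃ H, H = W + B * W := ⟨_, rfl⟩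
  have hw2 : w ^ 2 ≤ w ^ 4 := pow_le_pow_right₀ hw1 (by norm_num)
  have hw14 : w ≤ w ^ 4 := by
    calc w = w ^ 1 := (pow_one w).symm
      _ ≤ w ^ 4 := pow_le_pow_right₀ hw1 (by norm_num)
  have hw4 : 1 ≤ w ^ 4 := one_le_pow₀ hw1
  have hHw : ((H + 2 : ℕ) : ℝ) ≤ (2 * w) ^ 4 := by
    rw [hH, hB]
    push_cast
    have h1 : ((W : ℝ) + L + 1) * W ≤ (w + w ^ 3 + 1) * w := by
      apply mul_le_mul (by linarith) hWw (by positivity) (by positivity)
    have h2 : (w + w ^ 3 + 1) * w = w ^ 2 + w ^ 4 + w := by ring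
    have h3 : (2 * w) ^ 4 = 16 * w ^ 4 := by ring
    rw [h3]
    linarith
  have hHE : (((H + 2) ^ E : ℕ) : ℝ) ≤ X / 2 := by
    have h1 : (((H + 2) ^ E : ℕ) : ℝ) ≤ ((2 * w) ^ 4) ^ E := by
      push_cast
      apply pow_le_pow_left₀ (by positivity)
      exact_mod_cast hHw
    have h2 : ((2 * w) ^ 4) ^ E = 2 ^ (4 * E) * w ^ (4 * E) := by
      rw [← pow_mul, mul_pow]
    rw [h2] at h1
    have h3 : (2 : ℝ) ^ (4 * E) * w ^ (4 * E) ≤ 2 ^ (4 * E) * (2 * s) := mul_le_mul_of_nonneg_left hwE (by positivity)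
    have h4 : (2 : ℝ) ^ (4 * E) * (2 * s) ≤ X / 2 := by
      rw [← hsX]
      nlinarith
    linarith
  obtain ⟨N, hN⟩ : ∃ N, N = ⌊y * w⌋₊ + W + 1 := ⟨_, rfl⟩
  have hNr : (N : ℝ) ≤ y * w + w + 1 := by
    rw [hN]
    push_cast
    have := Nat.floor_le (by positivity : 0 ≤ y * w)
    linarith
  have hNX : (N : ℝ) < X ^ (0 + 2) := by
    have h1 : y * w ≤ 4 * (s * s) * (2 * s) := by
      rw [hy, ← hsX]
      exact mul_le_mul_of_nonneg_left hww (by positivity)
    have h2 : X ^ (0 + 2) = s * s * (s * s) := by rw [← hsX]; ring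
    rw [h2]
    have h3 : 0 < s * s := by positivity
    have h4 : 12 * (s * s * s) ≤ s * s * (s * s) := by
      have : s * s * (s * s) = s * (s * s * s) := by ring
      rw [this]
      exact mul_le_mul_of_nonneg_right hs12 (by positivity)
    have h5 : 144 * s ≤ s * s * s := by nlinarith
    nlinarith
  -- the exceptional numbers
  obtain ⟨T, hT⟩ : ∃ T : ℕ → Finset ℚ, ∀ q, (T q).card ≤ m + 1 ∧ ((H + 2) ^ E ≤ L * q →
      ∀ β : Fin r → ℚ, Function.Injective β →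
      (∀ i, β i ∉ T q ∧ β i ≠ 0 ∧ |(β i).num| ≤ H ∧ (β i).den ≤ H) →
      FourExp V fun i => ((L * q : ℕ) : ℝ) + ((β i : ℚ) : ℝ)) := by
    have h : ∀ q : ℕ, ∃ S : Finset ℚ, S.card ≤ m + 1 ∧ ((H + 2) ^ E ≤ L * q →
        ∀ β : Fin r → ℚ, Function.Injective β →
        (∀ i, β i ∉ S ∧ β i ≠ 0 ∧ |(β i).num| ≤ H ∧ (β i).den ≤ H) →
        FourExp V fun i => ((L * q : ℕ) : ℝ) + ((β i : ℚ) : ℝ)) := by
      intro q
      by_cases hq : (H + 2) ^ E ≤ L * q
      · obtain ⟨S, hS1, hS2⟩ := hE H (L * q) hq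
        exact ⟨S, hS1, fun _ => hS2⟩
      · exact ⟨∅, by simp, fun h => absurd h hq⟩
    choose T hT using h
    exact ⟨T, hT⟩
  obtain ⟨Q, hQ⟩ : ∃ Q, Q = N / L := ⟨_, rfl⟩
  obtain ⟨R, hR⟩ : ∃ R : ℕ → Prop, R = fun b : ℕ => ∃ q, q ≤ Q ∧ ∃ t ∈ T q, b = ⌊((L * q : ℕ) : ℝ) + ((t : ℚ) : ℝ)⌋₊ :=
    ⟨_, rfl⟩
  have hRc : ((range (N + 1)).filter R).card ≤ (Q + 1) * (m + 1) := by
    have hsub : (range (N + 1)).filter R ⊆ (range (Q + 1)).biUnion fun q =>
        (T q).image fun t : ℚ => ⌊((L * q : ℕ) : ℝ) + ((t : ℚ) : ℝ)⌋₊ := by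
      intro b hb
      rw [mem_filter, hR] at hb
      obtain ⟨-, q, hq, t, ht, hbt⟩ := hb
      rw [mem_biUnion]
      exact ⟨q, mem_range.2 (by omega), mem_image.2 ⟨t, ht, hbt.symm⟩⟩
    refine (card_le_card hsub).trans ?_
    have h1 := card_biUnion_le_card_mul (range (Q + 1)) (fun q => (T q).image fun t : ℚ => ⌊((L * q : ℕ) : ℝ) +
      ((t : ℚ) : ℝ)⌋₊) (m + 1) fun q _ => card_image_le.trans (hT q).1
    rwa [card_range] at h1
  have hcore := Pool.Agent.Q84.NX.near_core R 0 N W X hX1 hNX ⌊4 * X⌋₊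
  have hsub : ((Icc 1 ⌊4 * X⌋₊).filter fun p : ℕ => p.Prime ∧ X < p ∧ ¬ Good V r θ p) ⊆
      (Icc 1 ⌊4 * X⌋₊).filter fun p : ℕ => p.Prime ∧ X < p ∧
        ∃ n b : ℕ, 1 ≤ n ∧ n ≤ N ∧ p ∣ n ∧ b ≤ N ∧ R b ∧ n ≤ b + W ∧ b ≤ n + W := by
    intro p hp
    rw [mem_filter, mem_Icc] at hp ⊢
    obtain ⟨hp14, hpp, hXp, hg⟩ := hp
    unfold Good at hg
    push Not at hg
    obtain ⟨k, hk1, hkp, β, hinj, hβ, hbad⟩ := hg
    have hp4 : (p : ℝ) ≤ y := by rw [hy]; exact (Nat.le_floor_iff (by linarith)).1 hp14.2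
    have hpr0 : (0 : ℝ) < p := by linarith
    refine ⟨hp14, hpp, hXp, ?_⟩
    have hpw : (p : ℝ) ^ θ ≤ w := by rw [hw]; exact Real.rpow_le_rpow hpr0.le hp4 hθ0.le
    have hheight : ∀ i, |(β i).num| ≤ W ∧ (β i).den ≤ W := by
      intro i
      obtain ⟨h1, h2⟩ := hβ i
      constructor
      · have h3 : (((β i).num.natAbs : ℕ) : ℝ) = |((β i).num : ℝ)| := by
          rw [Nat.cast_natAbs, Int.cast_abs]
        have h4 : (β i).num.natAbs ≤ W := by
          rw [hW]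
          apply Nat.le_floor
          rw [h3]
          exact h1.trans hpw
        rw [Int.abs_eq_natAbs]
        exact_mod_cast h4
      · rw [hW]
        exact Nat.le_floor (h2.trans hpw)
    obtain ⟨z, hz⟩ : ∃ z, z = k * p := ⟨_, rfl⟩
    rw [← hz] at hbad
    have hzp : (z : ℝ) = k * p := by rw [hz]; push_cast; ring
    have hkr : (1 : ℝ) ≤ k := by exact_mod_cast hk1
    have hzX : X < z := by
      rw [hzp]
      nlinarith
    have hzyw : (z : ℝ) ≤ y * w := by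
      rw [hzp, mul_comm]
      exact mul_le_mul hp4 (hkp.trans hpw) (by linarith) hy0.le
    have hzN : z + W + 1 ≤ N := by
      have : z ≤ ⌊y * w⌋₊ := Nat.le_floor hzyw
      omega
    -- the window
    have hXhalf : w + w ^ 3 + 2 ≤ X / 2 := by
      rw [← hsX]
      nlinarith
    have hzB : (B : ℝ) + X / 2 ≤ z := by
      rw [hB]
      push_cast
      linarith
    have hBz : B ≤ z := by
      have : (B : ℝ) ≤ z := by linarith
      exact_mod_cast this
    obtain ⟨q, hq⟩ : ∃ q, q = (z - W - 1) / L := ⟨_, rfl⟩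
    have hq1 : L * q ≤ z - W - 1 := by rw [hq]; exact Nat.mul_div_le _ _
    have hq2 : z - W - 1 < L * q + L := by
      rw [hq]
      have := Nat.lt_mul_div_succ (z - W - 1) (by omega : 0 < L)
      rw [mul_add, mul_one] at this
      exact this
    obtain ⟨j, hj⟩ : ∃ j, j = z - L * q := ⟨_, rfl⟩
    have hjW : W < j := by omega
    have hjB : j ≤ B := by omega
    have hzj : z = L * q + j := by omega
    have hqQ : q ≤ Q := by
      rw [hq, hQ]
      exact Nat.div_le_div_right (by omega)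
    have hHt : (H + 2) ^ E ≤ L * q := by
      have h1 : (z : ℝ) ≤ ((L * q : ℕ) : ℝ) + B := by
        have : z ≤ L * q + B := by omega
        exact_mod_cast this
      have h2 : (((H + 2) ^ E : ℕ) : ℝ) ≤ ((L * q : ℕ) : ℝ) := by linarith
      exact_mod_cast h2
    -- one of the shifted numbers is exceptional
    have hex : ∃ i, β i + j ∈ T q := by
      by_contra hno
      push Not at hno
      apply hbad
      have h1 := (hT q).2 hHt (fun i => β i + j) (fun i i' h => hinj (by simpa using h)) fun i => by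
        obtain ⟨h2, h3⟩ := hheight i
        obtain ⟨h4, h5, h6⟩ := shift_height (β i) j W B h2 h3 hjW hjB
        exact ⟨hno i, h4, by rw [hH]; exact h5, by rw [hH]; exact h6⟩
      have h2 : (fun i => ((L * q : ℕ) : ℝ) + (((β i + j : ℚ)) : ℝ)) = fun i => (z : ℝ) + ((β i : ℚ) : ℝ) := by
        funext i
        rw [hzj]
        push_cast
        ring
      rw [h2] at h1
      exact h1
    obtain ⟨i, hi⟩ := hex
    obtain ⟨b, hb⟩ : ∃ b, b = ⌊((L * q : ℕ) : ℝ) + (((β i + j : ℚ)) : ℝ)⌋₊ := ⟨_, rfl⟩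
    have hval : ((L * q : ℕ) : ℝ) + (((β i + j : ℚ)) : ℝ) = z + ((β i : ℚ) : ℝ) := by
      rw [hzj]
      push_cast
      ring
    have hβW : |((β i : ℚ) : ℝ)| ≤ W := by
      obtain ⟨h2, -⟩ := hheight i
      have h4 : ((β i : ℚ) : ℝ) * (β i).den = ((β i).num : ℝ) := by
        exact_mod_cast Rat.mul_den_eq_num (β i)
      have h5 : (1 : ℝ) ≤ (β i).den := by exact_mod_cast (β i).pos
      have h6 : |((β i).num : ℝ)| ≤ W := by exact_mod_cast h2
      have h7 : |((β i : ℚ) : ℝ)| * (β i).den = |((β i).num : ℝ)| := by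
        rw [← h4, abs_mul, abs_of_nonneg (by linarith : (0 : ℝ) ≤ (β i).den)]
      calc |((β i : ℚ) : ℝ)| = |((β i : ℚ) : ℝ)| * 1 := (mul_one _).symm
        _ ≤ |((β i : ℚ) : ℝ)| * (β i).den := mul_le_mul_of_nonneg_left h5 (abs_nonneg _)
        _ = |((β i).num : ℝ)| := h7
        _ ≤ W := h6
    have hβ2 := abs_le.1 hβW
    have hWz : W ≤ z := by omega
    have hb1 : z - W ≤ b := by
      rw [hb, hval]
      apply Nat.le_floor
      rw [Nat.cast_sub hWz]
      linarith [hβ2.1]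
    have hb2 : b ≤ z + W := by
      have h8 : (b : ℝ) ≤ z + ((β i : ℚ) : ℝ) := by
        rw [hb, hval]
        apply Nat.floor_le
        have : (W : ℝ) ≤ z := by exact_mod_cast hWz
        linarith [hβ2.1]
      have h9 : (b : ℝ) ≤ ((z + W : ℕ) : ℝ) := by
        push_cast
        linarith [hβ2.2]
      exact_mod_cast h9
    refine ⟨z, b, ?_, by omega, by rw [hz]; exact dvd_mul_left _ _, by omega, ?_, by omega, by omega⟩
    · rw [hz]
      exact Nat.mul_pos hk1 hpp.pos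
    · rw [hR]
      exact ⟨q, hqQ, β i + j, hi, hb⟩
  have h1 : (((Icc 1 ⌊4 * X⌋₊).filter fun p : ℕ => p.Prime ∧ X < p ∧ ¬ Good V r θ p).card : ℝ) ≤
      ((Q : ℝ) + 1) * (m + 1) * (2 * W + 1) := by
    have h3 : (((Icc 1 ⌊4 * X⌋₊).filter fun p : ℕ => p.Prime ∧ X < p ∧ ¬ Good V r θ p).card : ℝ) ≤
      (((0 + 1) * (((Q + 1) * (m + 1)) * (2 * W + 1)) : ℕ) : ℝ) := by
      rw [Nat.cast_le]
      exact (card_le_card hsub).trans (hcore.trans (Nat.mul_le_mul_left _ (Nat.mul_le_mul_right _ hRc)))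
    refine h3.trans (le_of_eq ?_)
    push_cast
    ring
  refine h1.trans ?_
  have hL0 : (0 : ℝ) < L := by exact_mod_cast hL1
  have hyw2 : w ^ 2 ≤ y := by
    have h2 : w ^ 2 ≤ w ^ 3 := pow_le_pow_right₀ hw1 (by norm_num)
    rw [hy, ← hsX]
    nlinarith
  have hQr : (Q : ℝ) ≤ 24 * (y / w ^ 2) := by
    have h2 : (Q : ℝ) ≤ N / L := by rw [hQ]; exact Nat.cast_div_le
    have h3 : (N : ℝ) ≤ 3 * (y * w) := by nlinarith
    have h4 : (N : ℝ) / L ≤ 3 * (y * w) / L := div_le_div_of_nonneg_right h3 hL0.le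
    have h5 : 3 * (y * w) / L ≤ 24 * (y / w ^ 2) := by
      rw [div_le_iff₀ hL0]
      have h6 : 24 * (y / w ^ 2) * L = 3 * (y / w ^ 2) * (8 * L) := by ring
      rw [h6]
      calc 3 * (y * w) = 3 * (y / w ^ 2) * w ^ 3 := by field_simp
        _ ≤ 3 * (y / w ^ 2) * (8 * L) := mul_le_mul_of_nonneg_left hwL (by positivity)
    linarith
  have hyw3 : 1 ≤ y / w ^ 2 := by
    rw [le_div_iff₀ (by positivity)]
    linarith
  calc ((Q : ℝ) + 1) * (m + 1) * (2 * W + 1) ≤ (25 * (y / w ^ 2)) * (m + 1) * (3 * w) := by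
        apply mul_le_mul _ (by linarith) (by positivity) (by positivity)
        exact mul_le_mul_of_nonneg_right (by linarith) (by positivity)
    _ = 75 * ((m : ℝ) + 1) * (y / w) := by
        field_simp
        ring
    _ = 75 * ((m : ℝ) + 1) * y ^ (1 - θ) := by rw [hw, Real.rpow_sub hy0, Real.rpow_one]
    _ = 75 * ((m : ℝ) + 1) * (4 ^ (1 - θ) * X ^ (1 - θ)) := by rw [hy, Real.mul_rpow (by norm_num) hX0.le]
    _ ≤ 75 * ((m : ℝ) + 1) * (4 * X ^ (1 - θ)) := by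
        apply mul_le_mul_of_nonneg_left _ (by positivity)
        apply mul_le_mul_of_nonneg_right _ (by positivity)
        calc (4 : ℝ) ^ (1 - θ) ≤ 4 ^ (1 : ℝ) := Real.rpow_le_rpow_of_exponent_le (by norm_num) (by linarith)
          _ = 4 := Real.rpow_one _
    _ = (300 * ((m : ℝ) + 1)) * X ^ (1 - θ) := by ring
    _ ≤ X ^ (θ / 2) * X ^ (1 - θ) := mul_le_mul_of_nonneg_right hXC (by positivity)
    _ = X ^ (1 - θ / 2) := by
        rw [← Real.rpow_add hX0]
        congr 1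
        ring

/-- **Theorem.** -/
theorem result (V : Submodule ℚ ℝ) (hV : Module.Finite ℚ V) (r : ℕ) : ∃ θ : ℝ, 0 < θ ∧
    ∀ κ : ℝ, 0 < κ → ∀ m : ℕ, ∃ c' : ℝ, 0 < c' ∧
    ∀ Z : ℕ, ∃ D : ℕ, ∃ X₀ : ℝ, ∀ X : ℝ, X₀ ≤ X →
    ∃ S : Finset ℕ, (∀ q ∈ S, q.Prime ∧ Z < q) ∧ (S.card : ℝ) ≤ (Real.log X) ^ (49 / 50 : ℝ) ∧
    ∀ f : ℕ → ℤ, (∀ q, f q = 1 ∨ f q = -1) →
      X ^ (1 - κ) ≤ (((Icc 1 ⌊3 * X⌋₊).filter fun n : ℕ => X < n ∧
        m ≤ ((Icc n (n + D)).filter Nat.Prime).card ∧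
        ∀ p ∈ Icc n (n + D), p.Prime → Good V r θ p ∧
          ∀ q : ℕ, q.Prime → q ≠ 2 → (q : ℝ) ≤ c' * Real.log X → q ∉ S → jacobiSym p q = f q).card : ℝ) := by
  obtain ⟨E, hE⟩ := WindowGroups.result r (Module.finrank ℚ V)
  obtain ⟨θ, hθ⟩ : ∃ θ : ℝ, θ = 1 / (12 * ((E : ℝ) + 1)) := ⟨_, rfl⟩
  have hθ0 : 0 < θ := by rw [hθ]; positivity
  refine ⟨θ, hθ0, fun κ hκ m => ?_⟩
  refine Pool.Agent.Q84.NX.strings_of (Good V r θ) (θ / 2) (by positivity)
    (few_bad V r E (Module.finrank ℚ V) ?_ θ hθ) κ hκ m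
  intro H t ht
  obtain ⟨S, hS1, hS2⟩ := hE H t ht V hV le_rfl
  exact ⟨S, hS1, fun β h1 h2 => hS2 β h1 h2⟩

end Pool.Agent.Results.MP_bbc1fa_nt.StringsOfPrimes
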