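import Pool.Agent.Q138.PS.VH
import Pool.Agent.Results.MP_bbc1fa_nt.WindowGroups

/-!
# The four exponentials conjecture for the groups generated by the integers close to `α P(n)`

Let `q ≥ 2` and let `𝒞` be a countable set of real numbers (for example the logarithms of all positive rational numbers).
Outside a set of real numbers of Hausdorff dimension at most `q / (q + 1 / (q 2 ^ (q - 1)))` (that is `8 / 9` for `q = 2`) every
`α > 0` has the following property. There is `η > 0` such that for ALL `r` and ALL `ℚ`-spaces `V` spanned by finitely many elements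
of `𝒞` there is `κ > 0` such that for all large `N` and ALL integral polynomials `P` of degree `q` with positive leading
coefficient and coefficients of size at most `N ^ η`: for all but `N ^ (1 - κ)` of the `n ≤ N`, ALL `r`-tuples `t_1, …, t_r` of
distinct integers with `|t_i - ⌊α P(n)⌋| ≤ N ^ κ` have logarithms which are `ℚ`-linearly independent modulo `V`, and every real
`2 × 2` matrix with `ℚ`-linearly independent rows, `ℚ`-linearly independent columns, entries in `V + ∑ ℚ log t_i`, not all in `V`,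
is nonsingular.
-/

set_option autoImplicit false

open Module

namespace Pool.Agent.Results.MP_bbc1fa_nt.WindowGroupsAlongRealMultiples

open Finset Filter Topology
open Pool.Agent.Q138.PS

/-- For all `r`-tuples of distinct elements of `S` the logarithms are `ℚ`-linearly independent modulo `V`, and every real matrix
with independent rows, independent columns and entries in the space spanned by `V` and the logarithms, not all in `V`, is
nonsingular. -/
def FourExp (V : Submodule ℚ ℝ) (r : ℕ) (S : Set ℕ) : Prop :=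
  ∀ t : Fin r → ℕ, Function.Injective t → (∀ i, t i ∈ S) →
    finrank ℚ (V ⊔ Submodule.span ℚ (Set.range fun i => Real.log (t i)) : Submodule ℚ ℝ) = finrank ℚ V + r ∧
    ∀ M : Matrix (Fin 2) (Fin 2) ℝ,
      (∀ i j, M i j ∈ V ⊔ Submodule.span ℚ (Set.range fun i => Real.log (t i))) →
      (∃ i j, M i j ∉ V) →
      LinearIndependent ℚ (fun i : Fin 2 => fun j : Fin 2 => M i j) →
      LinearIndependent ℚ (fun j : Fin 2 => fun i : Fin 2 => M i j) → M.det ≠ 0

theorem mono (V : Submodule ℚ ℝ) (r : ℕ) (S S' : Set ℕ) (h : S ⊆ S') (h' : FourExp V r S') : FourExp V r S :=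
  fun t ht htS => h' t ht fun i => h (htS i)

theorem windows (V : Submodule ℚ ℝ) (hV : Module.Finite ℚ V) (r : ℕ) :
    ∃ B : ℕ, ∃ c : ℝ, 0 < c ∧ ∃ x₀ : ℕ, ∀ x H : ℕ, x₀ ≤ x → (H : ℝ) ≤ (x : ℝ) ^ c →
      ∃ T : Finset ℕ, T.card ≤ B ∧ FourExp V r (Set.Icc x (x + H) \ T) := by
  classical
  obtain ⟨E, hE⟩ := WindowGroups.result r (finrank ℚ V)
  refine ⟨finrank ℚ V + 1, win_of_pow _ (mono V r) (finrank ℚ V + 1) E fun H ξ hH => ?_⟩
  obtain ⟨S, hS, h⟩ := hE H ξ hH V hV le_rfl
  refine ⟨S.image fun x => x.num.natAbs, card_image_le.trans hS, ?_⟩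
  intro t hinj ht
  choose g hg1 hg2 hg3 hg4 using ht
  have h1 := h (fun i => (g i : ℚ)) (fun i j hij => hinj (by
    rw [hg4 i, hg4 j]
    have h5 : ((g i : ℕ) : ℚ) = (g j : ℕ) := hij
    have h6 : g i = g j := by exact_mod_cast h5
    rw [h6])) (fun i => ⟨fun hmem => hg3 i ?_, ?_, ?_, ?_⟩)
  · have e : (fun i => Real.log ((ξ : ℝ) + (((g i : ℕ) : ℚ) : ℝ))) = fun i => Real.log (t i) := by
      funext i
      rw [hg4 i]
      push_cast
      rfl
    rw [e] at h1
    exact h1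
  · exact mem_image.2 ⟨_, hmem, by simp⟩
  · have := hg1 i
    have h2 : (0 : ℚ) < g i := by exact_mod_cast this
    exact h2.ne'
  · simpa using hg2 i
  · simpa using (hg1 i).trans (hg2 i)

/-- **Theorem.** -/
theorem result (q : ℕ) (hq : 2 ≤ q) (𝒞 : Set ℝ) (h𝒞 : 𝒞.Countable) :
    ∃ E : Set ℝ, dimH E ≤ ENNReal.ofReal (q / (q + 1 / ((q : ℝ) * 2 ^ (q - 1)))) ∧ ∀ α : ℝ, 0 < α → α ∉ E →
      ∃ η : ℝ, 0 < η ∧ ∀ (s : ℕ) (v : Fin s → ℝ), (∀ i, v i ∈ 𝒞) → ∀ r : ℕ,
      ∃ κ : ℝ, 0 < κ ∧ ∀ᶠ N : ℕ in atTop, ∀ P : Polynomial ℤ, P.natDegree = q → 0 < P.leadingCoeff →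
        (∀ j, |((P.coeff j : ℤ) : ℝ)| ≤ (N : ℝ) ^ η) →
        (badG (FourExp (Submodule.span ℚ (Set.range v)) r) ⌊(N : ℝ) ^ κ⌋₊ α P N : ℝ) ≤ (N : ℝ) ^ (1 - κ) := by
  classical
  have hC : Countable {x : ℝ // x ∈ 𝒞} := h𝒞.to_subtype
  obtain ⟨E, hE, hg⟩ := win_tuples (ι := ℕ × (Σ s : ℕ, Fin s → {x : ℝ // x ∈ 𝒞})) q hq
    (fun i => FourExp (Submodule.span ℚ (Set.range fun j => (i.2.2 j : ℝ))) i.1) (fun i => mono _ _)
  refine ⟨E, hE, fun α hα hαE => ?_⟩
  obtain ⟨η, hη, h1⟩ := hg α hα hαE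
  refine ⟨η, hη, fun s v hv r => ?_⟩
  have hV : Module.Finite ℚ (Submodule.span ℚ (Set.range v)) := Module.Finite.span_of_finite _ (Set.finite_range v)
  obtain ⟨B, c, hc, h2⟩ := windows _ hV r
  exact h1 (r, ⟨s, fun j => ⟨v j, hv j⟩⟩) B c hc h2

end Pool.Agent.Results.MP_bbc1fa_nt.WindowGroupsAlongRealMultiples
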